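import Mathlib
import Pool.Agent.S07067

set_option autoImplicit false

namespace Pool.Agent.Results.MP_bc0e65_co.PeriodsOccur

/-- `opt b a` says that the position `b` is an option of the position `a`. Sums of positions are
multisets of positions; `t` is an option of the sum `s` if it arises by replacing one component by
one of its options. -/
def IsOption {α : Type} (opt : α → α → Prop) (t s : Multiset α) : Prop :=
  ∃ (a b : α) (u : Multiset α), s = a ::ₘ u ∧ t = b ::ₘ u ∧ opt b a

/-- `P` is the set of the sums of misère outcome `𝒫`: a sum lies in `P` iff it has an option and no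
option of it lies in `P` (the empty sum, where the player to move wins, is not in `P`). -/
def IsMiserePOutcome {α : Type} (opt : α → α → Prop) (P : Multiset α → Prop) : Prop :=
  ∀ s : Multiset α, P s ↔ (∃ t, IsOption opt t s) ∧ ∀ t, IsOption opt t s → ¬ P t

/-- `s` and `t` are equal in the misère quotient of the set of all sums of positions: `s + X` and
`t + X` have the same misère outcome for every sum `X`. -/
def SameClass {α : Type} (P : Multiset α → Prop) (s t : Multiset α) : Prop :=
  ∀ X : Multiset α, P (s + X) ↔ P (t + X)

/-- The class of `g` in the misère quotient has period `p`: `p` is the least integer `≥ 1` such that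
`(m + p) g` and `m g` have the same class for some `m ≥ 1`. -/
def HasPeriod {α : Type} (P : Multiset α → Prop) (g : Multiset α) (p : ℕ) : Prop :=
  IsLeast {q : ℕ | 1 ≤ q ∧ ∃ m : ℕ, 1 ≤ m ∧ SameClass P ((m + q) • g) (m • g)} p

/-- Some misère quotient contains an element of period `p`: there is a well-founded set `α` of
positions, each with finitely many options (so `α` consists of short impartial games, and the set of
all sums is closed under sums and options), and a sum `g` whose class has period `p`. -/
def OccursAsPeriod (p : ℕ) : Prop :=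
  ∃ (α : Type) (opt : α → α → Prop), WellFounded opt ∧ (∀ a : α, {b : α | opt b a}.Finite) ∧
    ∃ P : Multiset α → Prop, IsMiserePOutcome opt P ∧ ∃ g : Multiset α, HasPeriod P g p

/-- Misère quotients contain elements of period `5`, of period `8`, and of every period `p ≥ 1`. -/
theorem result : OccursAsPeriod 5 ∧ OccursAsPeriod 8 ∧ ∀ p : ℕ, 1 ≤ p → OccursAsPeriod p := by
  have key : ∀ p : ℕ, 1 ≤ p → OccursAsPeriod p := by
    intro p hp
    obtain ⟨α, opt, hwf, hfin, P, hP, g, ⟨n, hn⟩, hq⟩ := Pool.Agent.S07067.result p hp
    refine ⟨α, opt, hwf, hfin, P, ?_, g, ⟨⟨hp, n + 1, by omega, ?_⟩, ?_⟩⟩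
    · intro s
      rw [hP s]
      constructor
      · rintro ⟨⟨a, t, b, hs, hb⟩, h2⟩
        refine ⟨⟨b ::ₘ t, a, b, t, hs, rfl, hb⟩, ?_⟩
        rintro _ ⟨a', b', u, hs', rfl, hb'⟩
        exact h2 a' u b' hs' hb'
      · rintro ⟨⟨_, a, b, t, hs, rfl, hb⟩, h2⟩
        exact ⟨⟨a, t, b, hs, hb⟩, fun a' u b' hs' hb' => h2 _ ⟨a', b', u, hs', rfl, hb'⟩⟩
    · intro X
      have h := hn (g + X)
      have e1 : n • g + (g + X) = (n + 1) • g + X := by rw [add_smul, one_smul, add_assoc]
      have e2 : (n + p) • g + (g + X) = (n + 1 + p) • g + X := by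
        rw [show n + 1 + p = n + p + 1 by ring, add_smul (n + p) 1 g, one_smul, add_assoc]
      rw [e1, e2] at h
      exact h.symm
    · rintro q ⟨hq1, m, -, hm⟩
      by_contra hlt
      push Not at hlt
      exact hq q hq1 hlt ⟨m, fun X => (hm X).symm⟩
  exact ⟨key 5 (by norm_num), key 8 (by norm_num), key⟩

end Pool.Agent.Results.MP_bc0e65_co.PeriodsOccur
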